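import Mathlib
import Pool.Agent.W5h77.Rnd.Main

/-!
# After adding `lam ≥ 𝔡` random reals the strong polarized relation at `𝔡` fails

The conditions are the measurable subsets of nonzero product measure of `2^{lam × ω}`, ordered
by inclusion modulo null sets. Every condition forces that all cardinals are preserved, that the
dominating number is the dominating number of the ground model, and that the strong polarized
relation between this cardinal and `ω` fails; it also fails for all uncountable cardinals up to
`lam`.
-/

namespace Pool.Agent.Results.MP_95a70f_lc.RandomRealsFail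

open Cardinal Pool.Agent.Helper669.Forcing Pool.Agent.Helper669.K Pool.Agent.Helper669.Dom
open Pool.Agent.W5h77.Rnd

theorem result (lam : Cardinal.{0}) (h : dNum ≤ lam) (p : Random lam.out) :
    p ∈ CardinalsPreserved.{0, 0} (Random lam.out) ∧
    p ∈ DominatingIs (Random lam.out) dNum ∧
    p ∈ fnot (Polarized (Random lam.out) dNum.out ℕ) ∧
    ∀ κ : Cardinal.{0}, ℵ₀ < κ → κ ≤ lam →
      p ∈ fnot (Polarized (Random lam.out) κ.out ℕ) := by
  have key : ∀ κ : Cardinal.{0}, ℵ₀ < κ → κ ≤ lam →
      p ∈ fnot (Polarized (Random lam.out) κ.out ℕ) := fun κ h1 h2 =>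
    not_polarized (by rwa [mk_out]) (by rwa [mk_out, mk_out]) p
  exact ⟨cardinalsPreserved p, dominatingIs p, key _ aleph0_lt_dNum h, key⟩

end Pool.Agent.Results.MP_95a70f_lc.RandomRealsFail
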